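import Mathlib

/-!
Helper facts for MP_943595_co: positivity of valuations of principal minors and pivoting.
-/

namespace Q54.ValDelta

open Finset Matrix

variable {K : Type*} [Field K]

/-- `Pos ν r x` says that `ν x + r > 0`. -/
def Pos (ν : AddValuation K (WithTop ℝ)) (r : ℝ) (x : K) : Prop := ((-r : ℝ) : WithTop ℝ) < ν x

variable {ν : AddValuation K (WithTop ℝ)}

lemma Pos.add {r : ℝ} {x y : K} (hx : Pos ν r x) (hy : Pos ν r y) : Pos ν r (x + y) :=
  ν.map_lt_add hx hy

lemma Pos.neg {r : ℝ} {x : K} (hx : Pos ν r x) : Pos ν r (-x) := by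
  unfold Pos at *
  rwa [ν.map_neg]

lemma Pos.mul {r s : ℝ} {x y : K} (hx : Pos ν r x) (hy : Pos ν s y) : Pos ν (r + s) (x * y) := by
  unfold Pos at *
  rw [ν.map_mul]
  have : ((-(r + s) : ℝ) : WithTop ℝ) = ((-r : ℝ) : WithTop ℝ) + ((-s : ℝ) : WithTop ℝ) := by
    rw [← WithTop.coe_add]; congr 1; ring
  rw [this]
  exact WithTop.add_lt_add hx hy

lemma Pos.zero (r : ℝ) : Pos ν r (0 : K) := by
  unfold Pos
  rw [ν.map_zero]
  exact WithTop.coe_lt_top _

lemma not_pos_mul {r s : ℝ} {x y : K} (hx : ¬ Pos ν r x) (hy : ¬ Pos ν s y) :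
    ¬ Pos ν (r + s) (x * y) := by
  unfold Pos at *
  rw [ν.map_mul]
  have : ((-(r + s) : ℝ) : WithTop ℝ) = ((-r : ℝ) : WithTop ℝ) + ((-s : ℝ) : WithTop ℝ) := by
    rw [← WithTop.coe_add]; congr 1; ring
  rw [this]
  rw [not_lt] at *
  exact add_le_add hx hy

lemma pos_congr {r : ℝ} {x y : K} (h : ν x = ν y) : Pos ν r x ↔ Pos ν r y := by
  unfold Pos
  rw [h]

lemma Pos.sum {ι : Type*} {r : ℝ} (s : Finset ι) (f : ι → K) (h : ∀ i ∈ s, Pos ν r (f i)) :
    Pos ν r (∑ i ∈ s, f i) :=
  ν.map_lt_sum (WithTop.coe_ne_top) h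

lemma Pos.prod {ι : Type*} [DecidableEq ι] (s : Finset ι) (hs : s.Nonempty) (r : ι → ℝ) (f : ι → K)
    (h : ∀ i ∈ s, Pos ν (r i) (f i)) : Pos ν (∑ i ∈ s, r i) (∏ i ∈ s, f i) := by
  induction hs using Finset.Nonempty.cons_induction with
  | singleton a => simpa using h a (by simp)
  | cons a s ha hs ih =>
    rw [Finset.sum_cons, Finset.prod_cons]
    exact (h a (by simp)).mul (ih (fun i hi => h i (by simp [hi])))

/-- If all entries of a square matrix are positive after scaling, so is its determinant. -/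
lemma pos_det {ι : Type*} [Fintype ι] [DecidableEq ι] [Nonempty ι] (M : Matrix ι ι K) (w : ι → ℝ)
    (h : ∀ i j, Pos ν (w i + w j) (M i j)) : Pos ν (∑ i, (w i + w i)) M.det := by
  rw [Matrix.det_apply]
  refine Pos.sum _ _ (fun τ _ => ?_)
  have h1 : Pos ν (∑ i, (w (τ i) + w i)) (∏ i, M (τ i) i) :=
    Pos.prod Finset.univ Finset.univ_nonempty _ _ (fun i _ => h _ _)
  have h2 : ∑ i, (w (τ i) + w i) = ∑ i, (w i + w i) := by
    rw [Finset.sum_add_distrib, Finset.sum_add_distrib, Equiv.sum_comp τ w]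
  rw [h2] at h1
  rcases Int.units_eq_one_or (Equiv.Perm.sign τ) with hs | hs
  · rw [hs, one_smul]; exact h1
  · rw [hs]
    simpa using h1.neg

/-- The key step: if `A + A*` has rank at most one and all proper principal minors of size one and
two are positive after scaling, then all entries are positive after scaling. -/
lemma pos_entries {ι : Type*} [DecidableEq ι] (σ : K ≃+* K) (hσ : ∀ a, σ (σ a) = a)
    (hν : ∀ a, ν (σ a) = ν a) (A : ι → ι → K) (u v : ι → K)
    (hC : ∀ i j, A i j + σ (A j i) = u i * v j) (w : ι → ℝ)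
    (h1 : ∀ i, Pos ν (w i + w i) (A i i))
    (h2 : ∀ i j, i ≠ j → Pos ν ((w i + w i) + (w j + w j)) (A i i * A j j - A i j * A j i)) :
    ∀ i j, Pos ν (w i + w j) (A i j) := by
  have hc1 : ∀ i, Pos ν (w i + w i) (u i * v i) := by
    intro i
    rw [← hC i i]
    exact (h1 i).add ((pos_congr (hν _)).2 (h1 i))
  have hsym : ∀ i j, ν (u i * v j) = ν (u j * v i) := by
    intro i j
    have : σ (u i * v j) = u j * v i := by
      rw [← hC i j, ← hC j i, map_add, hσ, add_comm]
    rw [← this, hν]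
  have hc2 : ∀ i j, Pos ν (w i + w j) (u i * v j) := by
    intro i j
    by_contra hcon
    have hcon' : ¬ Pos ν (w i + w j) (u j * v i) := by
      rwa [← pos_congr (hsym i j)]
    have h3 := not_pos_mul hcon hcon'
    apply h3
    have h4 := (hc1 i).mul (hc1 j)
    have e1 : u i * v i * (u j * v j) = u i * v j * (u j * v i) := by ring
    have e2 : w i + w i + (w j + w j) = w i + w j + (w i + w j) := by ring
    rwa [e1, e2] at h4
  intro i j
  by_cases hij : i = j
  · subst hij; exact h1 i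
  have h3 : Pos ν ((w i + w j) + (w i + w j)) (A i j * A j i) := by
    have h4 := (((h1 i).mul (h1 j))).add (h2 i j hij).neg
    have e1 : A i i * A j j + -(A i i * A j j - A i j * A j i) = A i j * A j i := by ring
    have e2 : w i + w i + (w j + w j) = w i + w j + (w i + w j) := by ring
    rwa [e1, e2] at h4
  by_contra hcon
  have h5 : ¬ Pos ν (w i + w j) (A j i) := by
    intro h6
    apply hcon
    have h7 : A i j = u i * v j + -(σ (A j i)) := by rw [← hC i j]; ring
    rw [h7]
    exact (hc2 i j).add ((pos_congr (hν _)).2 h6).neg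
  exact not_pos_mul hcon h5 h3

end Q54.ValDelta
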