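import Mathlib
import Pool.Agent.Q54.ValDelta

/-!
Principal minors under a pivot, for MP_943595_co.
-/

namespace Q54.ValDelta

open Finset Matrix

variable {K : Type*} [Field K] {n : ℕ}

/-- The matrix whose `j`-th column is the `j`-th column of `A` when `j ∈ S` and the `j`-th unit
vector otherwise. -/
def mix (A : Matrix (Fin n) (Fin n) K) (S : Finset (Fin n)) : Matrix (Fin n) (Fin n) K :=
  fun i j => if j ∈ S then A i j else (1 : Matrix (Fin n) (Fin n) K) i j

/-- The principal minor of `A` on `S`. -/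
def pm (A : Matrix (Fin n) (Fin n) K) (S : Finset (Fin n)) : K :=
  (A.submatrix (fun i : S => (i : Fin n)) (fun i : S => (i : Fin n))).det

lemma det_inst {ι : Type*} (i1 i2 : Fintype ι) (d1 d2 : DecidableEq ι) (M : Matrix ι ι K) :
    @Matrix.det _ d1 i1 K _ M = @Matrix.det _ d2 i2 K _ M := by
  have h1 : i1 = i2 := Subsingleton.elim _ _
  have h2 : d1 = d2 := Subsingleton.elim _ _
  subst h1 h2
  rfl

lemma det_mix (A : Matrix (Fin n) (Fin n) K) (S : Finset (Fin n)) : (mix A S).det = pm A S := by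
  rw [Matrix.twoBlockTriangular_det' (mix A S) (fun i => i ∈ S)]
  · have h2 : (toSquareBlockProp (mix A S) (fun i => ¬ i ∈ S)) = 1 := by
      ext i j
      have hj := j.2
      rw [Matrix.toSquareBlockProp_def, Matrix.of_apply]
      have h0 : mix A S i j = (1 : Matrix (Fin n) (Fin n) K) i j := if_neg hj
      rw [h0]
      by_cases hij : i = j
      · subst hij; simp
      · rw [Matrix.one_apply_ne hij, Matrix.one_apply_ne]
        intro h; exact hij (Subtype.ext h)
    have h3 : (toSquareBlockProp (mix A S) (fun i => i ∈ S)) =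
        A.submatrix (fun i : {a // a ∈ S} => (i : Fin n)) (fun i : {a // a ∈ S} => (i : Fin n)) := by
      ext i j
      rw [Matrix.toSquareBlockProp_def, Matrix.of_apply, Matrix.submatrix_apply]
      exact if_pos j.2
    rw [h2, Matrix.det_one, mul_one, h3]
    exact det_inst _ _ _ _ _
  · intro i hi j hj
    have h0 : mix A S i j = (1 : Matrix (Fin n) (Fin n) K) i j := if_neg hj
    rw [h0, Matrix.one_apply_ne]
    intro h; exact hj (h ▸ hi)

/-- the pivot of `A` on `S` -/
noncomputable def piv (A : Matrix (Fin n) (Fin n) K) (S : Finset (Fin n)) :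
    Matrix (Fin n) (Fin n) K := (mix A S)⁻¹ * mix A Sᶜ

lemma mix_piv (A : Matrix (Fin n) (Fin n) K) (S : Finset (Fin n)) (hS : pm A S ≠ 0)
    (U : Finset (Fin n)) : mix (piv A S) U = (mix A S)⁻¹ * mix A (symmDiff U S) := by
  have hu : IsUnit (mix A S).det := by rw [det_mix]; exact hS.isUnit
  ext i j
  by_cases hj : j ∈ U
  · simp only [mix, if_pos hj, piv, Matrix.mul_apply]
    refine Finset.sum_congr rfl (fun k _ => ?_)
    congr 1
    by_cases hs : j ∈ S
    · simp [hs, hj, Finset.mem_symmDiff]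
    · simp [hs, hj, Finset.mem_symmDiff]
  · have h1 : mix (piv A S) U i j = (1 : Matrix (Fin n) (Fin n) K) i j := by
      simp only [mix, if_neg hj]
    rw [h1, ← Matrix.nonsing_inv_mul _ hu, Matrix.mul_apply, Matrix.mul_apply]
    refine Finset.sum_congr rfl (fun k _ => ?_)
    congr 1
    by_cases hs : j ∈ S
    · simp [mix, hs, hj, Finset.mem_symmDiff]
    · simp [mix, hs, hj, Finset.mem_symmDiff]

lemma pm_piv (A : Matrix (Fin n) (Fin n) K) (S : Finset (Fin n)) (hS : pm A S ≠ 0)
    (U : Finset (Fin n)) : pm A S * pm (piv A S) U = pm A (symmDiff U S) := by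
  rw [← det_mix, ← det_mix, ← det_mix, mix_piv A S hS U, Matrix.det_mul,
    Matrix.det_nonsing_inv, ← mul_assoc, Ring.mul_inverse_cancel, one_mul]
  rw [det_mix]; exact hS.isUnit

/-- conjugate transpose -/
def ct (σ : K ≃+* K) (M : Matrix (Fin n) (Fin n) K) : Matrix (Fin n) (Fin n) K :=
  fun i j => σ (M j i)

lemma ct_mul (σ : K ≃+* K) (M N : Matrix (Fin n) (Fin n) K) : ct σ (M * N) = ct σ N * ct σ M := by
  ext i j
  simp only [ct, Matrix.mul_apply, map_sum, map_mul]
  exact Finset.sum_congr rfl (fun k _ => mul_comm _ _)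

lemma ct_one (σ : K ≃+* K) : ct σ (1 : Matrix (Fin n) (Fin n) K) = 1 := by
  ext i j
  simp only [ct, Matrix.one_apply]
  by_cases h : j = i
  · subst h; simp
  · have h' : ¬ i = j := fun e => h e.symm
    simp [h, h']

lemma mix_ct (σ : K ≃+* K) (A : Matrix (Fin n) (Fin n) K) (S : Finset (Fin n)) :
    mix A Sᶜ * ct σ (mix A S) + mix A S * ct σ (mix A Sᶜ) = A + ct σ A := by
  ext i j
  simp only [Matrix.add_apply, Matrix.mul_apply]
  rw [← Finset.sum_add_distrib]
  have h : ∀ k, mix A Sᶜ i k * ct σ (mix A S) k j + mix A S i k * ct σ (mix A Sᶜ) k j =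
      (1 : Matrix (Fin n) (Fin n) K) i k * σ (A j k) +
        A i k * (1 : Matrix (Fin n) (Fin n) K) j k := by
    intro k
    have hσ1 : σ ((1 : Matrix (Fin n) (Fin n) K) j k) = (1 : Matrix (Fin n) (Fin n) K) j k := by
      rw [Matrix.one_apply]
      split_ifs <;> simp
    by_cases hk : k ∈ S
    · simp only [mix, ct, hk, Finset.mem_compl, if_true, not_true_eq_false, if_false, hσ1]
    · simp only [mix, ct, hk, Finset.mem_compl, if_true, not_false_eq_true, if_false, hσ1]
      ring
  rw [Finset.sum_congr rfl (fun k _ => h k), Finset.sum_add_distrib]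
  have e1 : ∑ k, (1 : Matrix (Fin n) (Fin n) K) i k * σ (A j k) = σ (A j i) := by
    rw [Finset.sum_eq_single i]
    · simp
    · intro b _ hb; rw [Matrix.one_apply_ne (fun e => hb e.symm)]; simp
    · intro h; exact absurd (Finset.mem_univ i) h
  have e2 : ∑ k, A i k * (1 : Matrix (Fin n) (Fin n) K) j k = A i j := by
    rw [Finset.sum_eq_single j]
    · simp
    · intro b _ hb; rw [Matrix.one_apply_ne (fun e => hb e.symm)]; simp
    · intro h; exact absurd (Finset.mem_univ j) h
  rw [e1, e2]
  simp only [ct]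
  ring

/-- `A + A*` is transformed by congruence when `A` is replaced by its pivot. -/
lemma piv_add_ct (σ : K ≃+* K) (A : Matrix (Fin n) (Fin n) K) (S : Finset (Fin n))
    (hS : pm A S ≠ 0) :
    piv A S + ct σ (piv A S) = (mix A S)⁻¹ * (A + ct σ A) * ct σ ((mix A S)⁻¹) := by
  have hu : IsUnit (mix A S).det := by rw [det_mix]; exact hS.isUnit
  have h1 : ct σ (mix A S) * ct σ ((mix A S)⁻¹) = 1 := by
    rw [← ct_mul, Matrix.nonsing_inv_mul _ hu, ct_one]
  rw [← mix_ct σ A S, Matrix.mul_add, Matrix.add_mul]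
  congr 1
  · rw [← Matrix.mul_assoc, Matrix.mul_assoc _ _ (ct σ (mix A S)⁻¹), h1, Matrix.mul_one, piv]
  · rw [← Matrix.mul_assoc, Matrix.nonsing_inv_mul _ hu, Matrix.one_mul, ← ct_mul, piv]

lemma rank_one_form (C : Matrix (Fin n) (Fin n) K) (h : C.rank = 1) :
    ∃ u v : Fin n → K, ∀ i j, C i j = u i * v j := by
  rw [Matrix.rank, finrank_eq_one_iff'] at h
  obtain ⟨w, _, hw⟩ := h
  have h2 : ∀ j, ∃ c : K, ∀ i, C i j = (w : Fin n → K) i * c := by
    intro j
    obtain ⟨c, hc⟩ := hw ⟨C.mulVecLin (Pi.single j 1), LinearMap.mem_range_self _ _⟩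
    refine ⟨c, fun i => ?_⟩
    have := congrArg (fun z : LinearMap.range C.mulVecLin => (z : Fin n → K) i) hc
    simp at this
    rw [← this, mul_comm]
  choose c hc using h2
  exact ⟨w, c, fun i j => hc j i⟩

/-- rank one form is preserved by congruence -/
lemma form_congr (M C N : Matrix (Fin n) (Fin n) K) (u v : Fin n → K)
    (h : ∀ i j, C i j = u i * v j) : ∀ i j, (M * C * N) i j =
      (∑ k, M i k * u k) * (∑ k, v k * N k j) := by
  intro i j
  simp only [Matrix.mul_apply, h]
  rw [Finset.mul_sum]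
  refine Finset.sum_congr rfl (fun k _ => ?_)
  rw [Finset.sum_mul, Finset.sum_mul]
  exact Finset.sum_congr rfl (fun l _ => by ring)

lemma pm_singleton (A : Matrix (Fin n) (Fin n) K) (i : Fin n) : pm A {i} = A i i := by
  unfold pm
  rw [Matrix.det_eq_elem_of_subsingleton _ (⟨i, by simp⟩ : ({i} : Finset (Fin n)))]
  rfl

lemma pm_pair (A : Matrix (Fin n) (Fin n) K) (i j : Fin n) (hij : i ≠ j) :
    pm A {i, j} = A i i * A j j - A i j * A j i := by
  unfold pm
  have hi : i ∈ ({i, j} : Finset (Fin n)) := by simp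
  have hj : j ∈ ({i, j} : Finset (Fin n)) := by simp
  let e : Fin 2 ≃ ({i, j} : Finset (Fin n)) :=
    { toFun := fun x => if x = 0 then ⟨i, hi⟩ else ⟨j, hj⟩
      invFun := fun y => if (y : Fin n) = i then 0 else 1
      left_inv := by
        intro x
        fin_cases x
        · simp
        · simp [hij.symm]
      right_inv := by
        rintro ⟨y, hy⟩
        rcases Finset.mem_insert.1 hy with h | h
        · subst h; simp
        · have h := Finset.mem_singleton.1 h
          subst h; simp [hij.symm] }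
  rw [← Matrix.det_submatrix_equiv_self e, Matrix.det_fin_two]
  simp [e, Matrix.submatrix_apply]

end Q54.ValDelta
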