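import Mathlib
import Pool.Agent.Q54.ValDelta2

/-!
The main combinatorial step for MP_943595_co.
-/

namespace Q54.ValDelta

open Finset Matrix

variable {K : Type*} [Field K] {n : ℕ} {ν : AddValuation K (WithTop ℝ)}

lemma sum_symmDiff (c : Fin n → ℝ) (U S : Finset (Fin n)) :
    ∑ i ∈ symmDiff U S, c i = ∑ i ∈ S, c i + ∑ i ∈ U, (if i ∈ S then -c i else c i) := by
  have h1 : ∀ X : Finset (Fin n), ∑ i ∈ X, c i = ∑ i, if i ∈ X then c i else 0 := by
    intro X; rw [Finset.sum_ite_mem, Finset.univ_inter]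
  have h2 : ∑ i ∈ U, (if i ∈ S then -c i else c i) =
      ∑ i, if i ∈ U then (if i ∈ S then -c i else c i) else 0 := by
    rw [Finset.sum_ite_mem, Finset.univ_inter]
  rw [h1, h1, h2, ← Finset.sum_add_distrib]
  refine Finset.sum_congr rfl (fun i _ => ?_)
  by_cases hU : i ∈ U <;> by_cases hS : i ∈ S <;> simp [Finset.mem_symmDiff, hU, hS]

lemma main_step (σ : K ≃+* K) (hσ : ∀ a, σ (σ a) = a) (hν : ∀ a, ν (σ a) = ν a)
    (A : Matrix (Fin n) (Fin n) K) (u v : Fin n → K)
    (hC : ∀ i j, A i j + σ (A j i) = u i * v j) (c : Fin n → ℝ) (m : ℝ)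
    (S T : Finset (Fin n))
    (hS : ν (pm A S) + ((∑ i ∈ S, c i : ℝ) : WithTop ℝ) = (m : WithTop ℝ))
    (hT : ν (pm A T) + ((∑ i ∈ T, c i : ℝ) : WithTop ℝ) = (m : WithTop ℝ))
    (h : ∀ U, U ≠ S → U ≠ T →
      (m : WithTop ℝ) < ν (pm A U) + ((∑ i ∈ U, c i : ℝ) : WithTop ℝ)) :
    (symmDiff T S).card ≤ 2 := by
  by_contra hcard
  push Not at hcard
  have hS0 : pm A S ≠ 0 := by
    intro h0
    rw [h0, ν.map_zero] at hS
    simp at hS
  obtain ⟨s, hs⟩ : ∃ s : ℝ, ν (pm A S) = (s : WithTop ℝ) := by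
    have := (ν.ne_top_iff (x := pm A S)).2 hS0
    exact ⟨_, (WithTop.coe_untop _ this).symm⟩
  have hsm : s + ∑ i ∈ S, c i = m := by
    rw [hs, ← WithTop.coe_add] at hS
    exact WithTop.coe_injective hS
  set w' : Fin n → ℝ := fun i => if i ∈ S then -c i else c i with hw'
  set D := symmDiff T S with hD
  -- translation
  have key : ∀ U : Finset (Fin n), ν (pm A (symmDiff U S)) +
      ((∑ i ∈ symmDiff U S, c i : ℝ) : WithTop ℝ) =
      (m : WithTop ℝ) + (ν (pm (piv A S) U) + ((∑ i ∈ U, w' i : ℝ) : WithTop ℝ)) := by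
    intro U
    rw [← pm_piv A S hS0 U, ν.map_mul, hs, sum_symmDiff, ← hsm, WithTop.coe_add, WithTop.coe_add]
    abel
  have hpos : ∀ U : Finset (Fin n), U ≠ ∅ → U ≠ D → Pos ν (∑ i ∈ U, w' i) (pm (piv A S) U) := by
    intro U hU1 hU2
    have h1 := h (symmDiff U S) (by
      intro e
      apply hU1
      rwa [symmDiff_eq_right] at e) (by
      intro e
      apply hU2
      rw [hD, ← e, symmDiff_assoc, symmDiff_self, symmDiff_bot])
    rw [key U] at h1
    unfold Pos
    rcases eq_or_ne (ν (pm (piv A S) U)) ⊤ with ht | ht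
    · rw [ht]; exact WithTop.coe_lt_top _
    · obtain ⟨r, hr⟩ : ∃ r : ℝ, ν (pm (piv A S) U) = (r : WithTop ℝ) :=
        ⟨_, (WithTop.coe_untop _ ht).symm⟩
      rw [hr, ← WithTop.coe_add, ← WithTop.coe_add, WithTop.coe_lt_coe] at h1
      rw [hr, WithTop.coe_lt_coe]
      linarith
  have hDD : symmDiff D S = T := by
    rw [hD, symmDiff_assoc, symmDiff_self, symmDiff_bot]
  have hnot : ¬ Pos ν (∑ i ∈ D, w' i) (pm (piv A S) D) := by
    have h1 := key D
    rw [hDD, hT] at h1
    unfold Pos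
    rcases eq_or_ne (ν (pm (piv A S) D)) ⊤ with ht | ht
    · rw [ht] at h1; simp at h1
    · obtain ⟨r, hr⟩ : ∃ r : ℝ, ν (pm (piv A S) D) = (r : WithTop ℝ) :=
        ⟨_, (WithTop.coe_untop _ ht).symm⟩
      rw [hr, ← WithTop.coe_add, ← WithTop.coe_add] at h1
      have h2 := WithTop.coe_injective h1
      rw [hr, WithTop.coe_lt_coe]
      linarith
  apply hnot
  -- the congruence form
  have hC' : ∀ i j, (A + ct σ A) i j = u i * v j := fun i j => hC i j
  have hform := form_congr (mix A S)⁻¹ (A + ct σ A) (ct σ ((mix A S)⁻¹)) u v hC'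
  rw [← piv_add_ct σ A S hS0] at hform
  set w : Fin n → ℝ := fun i => w' i / 2 with hw
  have hww : ∀ i, w i + w i = w' i := fun i => by simp [hw]
  have hne : Nonempty D := by
    have : 0 < D.card := by omega
    obtain ⟨x, hx⟩ := Finset.card_pos.1 this
    exact ⟨⟨x, hx⟩⟩
  have hent := pos_entries (ι := D) σ hσ hν (fun i j => piv A S i j)
    (fun i => ∑ k, (mix A S)⁻¹ i k * u k) (fun j => ∑ k, v k * ct σ ((mix A S)⁻¹) k j)
    (fun i j => hform i j) (fun i => w i)
    (by
      intro i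
      have h1 := hpos {(i : Fin n)} (by simp) (by
        intro e
        rw [← e] at hcard
        simp at hcard)
      rw [pm_singleton, Finset.sum_singleton] at h1
      rw [hww]; exact h1)
    (by
      intro i j hij
      have hij' : (i : Fin n) ≠ (j : Fin n) := fun e => hij (Subtype.ext e)
      have h1 := hpos {(i : Fin n), (j : Fin n)} (by simp) (by
        intro e
        rw [← e, Finset.card_pair hij'] at hcard
        omega)
      rw [pm_pair _ _ _ hij', Finset.sum_pair hij'] at h1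
      rw [hww, hww]; exact h1)
  have hdet := pos_det (ν := ν) ((piv A S).submatrix (fun i : D => (i : Fin n))
    (fun i : D => (i : Fin n))) (fun i => w i) (fun i j => hent i j)
  have hsum : ∑ i : D, (w i + w i) = ∑ i ∈ D, w' i := by
    rw [Finset.sum_coe_sort D (fun i => w i + w i)]
    exact Finset.sum_congr rfl (fun i _ => hww i)
  rw [hsum] at hdet
  exact hdet

end Q54.ValDelta
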